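import Pool.Agent.Lib.MP_bdfe25_al.SS.Main

/-! Orders and signs of two permutations and of their product: the exact answer for all orders
up to `n`. -/

namespace Pool.Agent.Results.MP_bdfe25_al.SignedSharp

/-- `m` is a power of two with `n ≤ m + 1`, or `m = n = 6`. -/
def Forced (n m : ℕ) : Prop := (∃ k : ℕ, m = 2 ^ k ∧ n ≤ m + 1) ∨ (m = 6 ∧ n = 6)

/-- For `1 < m ≤ n` this says that some permutation of `n` points has order `m` and sign `s`. -/
def Occurs (n m : ℕ) (s : ℤˣ) : Prop := (Odd m → s = 1) ∧ (Forced n m → s = -1)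

/-- The exceptions, with the two equal orders `a = b` and their signs `s = t` listed first. -/
def Exceptional (n a b c : ℕ) (s t : ℤˣ) : Prop :=
  a = b ∧ s = t ∧ ((a = 2 ∧ Odd c ∧ IsPrimePow c ∧ n ≤ c + 1 ∧ s ≠ (-1) ^ (c / 2)) ∨
    (a = 4 ∧ c = 6 ∧ n = 7 ∧ s = -1))

theorem result (n a b c : ℕ) (ha : 1 < a) (hb : 1 < b) (hc : 1 < c) (han : a ≤ n) (hbn : b ≤ n)
    (hcn : c ≤ n) (s t : ℤˣ) :
    (∃ σ τ : Equiv.Perm (Fin n), orderOf σ = a ∧ orderOf τ = b ∧ orderOf (σ * τ) = c ∧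
      Equiv.Perm.sign σ = s ∧ Equiv.Perm.sign τ = t) ↔
    ((Occurs n a s ∧ Occurs n b t ∧ Occurs n c (s * t)) ∧
      ¬ (Exceptional n a b c s t ∨ Exceptional n b c a t (s * t) ∨
        Exceptional n c a b (s * t) s)) :=
  Pool.Agent.Lib.MP_bdfe25_al.SS.signed_sharp ha hb hc han hbn hcn

end Pool.Agent.Results.MP_bdfe25_al.SignedSharp
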